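import Pool.Agent.H78.S.Targets

/-!
# Theorem S (MP_9d0bb7_lc), row HYP: complements of hyperplanes
-/

set_option autoImplicit false

open Set Pool.Agent.H77.BC Pool.Agent.H78.S Matrix
open scoped Pointwise

namespace Pool.Agent.H89.S

theorem Big_mono {M : Type} (U : RU M) {α : Type} [Cod M α] {A X Y : Set α}
    (h : Big U A X) (hXY : X ⊆ Y) : Big U A Y := by
  obtain ⟨Z, h1, h2, h3, h4, h5⟩ := h
  exact ⟨Z, h1, h2, h3, h4.trans hXY, h5⟩

/-- a property of functionals closed under permutations and one transvection -/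
theorem good_all {K : Type} [Field K] {m : ℕ} (Good : (Fin (m + 1 + 1) → K) → Prop)
    (hS : ∀ c : K, c ≠ 0 → Good (Pi.single 0 c))
    (hP : ∀ (φ : Fin (m + 1 + 1) → K) (σ : Equiv.Perm (Fin (m + 1 + 1))),
      Good φ → Good (φ ∘ σ))
    (hT : ∀ (φ : Fin (m + 1 + 1) → K) (b : K), Good φ → Good (φ + Pi.single 0 (φ 1 * b))) :
    ∀ φ : Fin (m + 1 + 1) → K, φ ≠ 0 → Good φ := by
  have h01 : (0 : Fin (m + 1 + 1)) ≠ 1 := by simp [Fin.ext_iff]
  have hT' : ∀ (φ : Fin (m + 1 + 1) → K) (b : K) (l : Fin (m + 1 + 1)), l ≠ 1 → Good φ →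
      Good (φ + Pi.single l (φ 1 * b)) := by
    intro φ b l hl h
    have h1 := hP _ (Equiv.swap 0 l) (hT (φ ∘ Equiv.swap 0 l) b (hP φ (Equiv.swap 0 l) h))
    have e : ((φ ∘ Equiv.swap 0 l) + Pi.single 0 ((φ ∘ Equiv.swap 0 l) 1 * b)) ∘
        Equiv.swap 0 l = φ + Pi.single l (φ 1 * b) := by
      funext i
      have e1 : Equiv.swap 0 l 1 = 1 := Equiv.swap_apply_of_ne_of_ne h01.symm hl.symm
      simp only [Function.comp_apply, Pi.add_apply, Equiv.swap_apply_self, e1]
      congr 1
      by_cases h2 : i = l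
      · subst h2
        simp
      · by_cases h3 : i = 0
        · subst h3
          rw [Equiv.swap_apply_left, Pi.single_eq_of_ne (Ne.symm h2), Pi.single_eq_of_ne h2]
        · rw [Equiv.swap_apply_of_ne_of_ne h3 h2, Pi.single_eq_of_ne h3,
            Pi.single_eq_of_ne h2]
    rw [e] at h1
    exact h1
  have hS1 : ∀ c : K, c ≠ 0 → Good (Pi.single 1 c) := by
    intro c hc
    have h1 := hP _ (Equiv.swap 0 1) (hS c hc)
    have e : (Pi.single 0 c : Fin (m + 1 + 1) → K) ∘ Equiv.swap 0 1 = Pi.single 1 c := by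
      funext i
      simp only [Function.comp_apply]
      by_cases h2 : i = 1
      · subst h2
        simp
      · by_cases h3 : i = 0
        · subst h3
          rw [Equiv.swap_apply_left, Pi.single_eq_of_ne (Ne.symm h2), Pi.single_eq_of_ne h2]
        · rw [Equiv.swap_apply_of_ne_of_ne h3 h2, Pi.single_eq_of_ne h3,
            Pi.single_eq_of_ne h2]
    rw [e] at h1
    exact h1
  have hmain : ∀ φ : Fin (m + 1 + 1) → K, φ 1 ≠ 0 → Good φ := by
    intro φ hφ
    have key : ∀ s : Finset (Fin (m + 1 + 1)),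
        Good (fun i => if i = 1 ∨ i ∈ s then φ i else 0) := by
      classical
      intro s
      induction s using Finset.induction_on with
      | empty =>
        have e : (fun i => if i = 1 ∨ i ∈ (∅ : Finset (Fin (m + 1 + 1))) then φ i else 0) =
            Pi.single 1 (φ 1) := by
          funext i
          by_cases h2 : i = 1
          · subst h2; simp
          · simp [h2]
        have h3 := hS1 (φ 1) hφ
        rw [← e] at h3
        exact h3
      | insert l s hl ih =>
        by_cases hl1 : l = 1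
        · have e : (fun i => if i = 1 ∨ i ∈ insert l s then φ i else 0) =
              fun i => if i = 1 ∨ i ∈ s then φ i else 0 := by
            funext i
            have : (i = 1 ∨ i ∈ insert l s) ↔ (i = 1 ∨ i ∈ s) := by
              rw [Finset.mem_insert, hl1]
              tauto
            simp only [this]
          rw [e]
          exact ih
        · have h3 := hT' _ (φ l / φ 1) l hl1 ih
          have e : (fun i => if i = 1 ∨ i ∈ insert l s then φ i else 0) =
              ((fun i => if i = 1 ∨ i ∈ s then φ i else 0) +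
                Pi.single l ((if (1 : Fin (m + 1 + 1)) = 1 ∨ (1 : Fin (m + 1 + 1)) ∈ s
                  then φ 1 else 0) * (φ l / φ 1)) : Fin (m + 1 + 1) → K) := by
            funext i
            rw [if_pos (Or.inl rfl), mul_div_cancel₀ _ hφ]
            simp only [Pi.add_apply]
            by_cases h2 : i = l
            · subst h2
              simp [hl, hl1]
            · rw [Pi.single_eq_of_ne h2, add_zero]
              have : (i = 1 ∨ i ∈ insert l s) ↔ (i = 1 ∨ i ∈ s) := by
                rw [Finset.mem_insert]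
                tauto
              simp only [this]
          rw [e]
          exact h3
    have h4 := key Finset.univ
    have e : (fun i => if i = 1 ∨ i ∈ (Finset.univ : Finset (Fin (m + 1 + 1))) then φ i
        else 0) = φ := by
      funext i
      simp
    rw [e] at h4
    exact h4
  intro φ hφ
  obtain ⟨k, hk⟩ : ∃ k, φ k ≠ 0 := by
    by_contra hcon
    push Not at hcon
    exact hφ (funext hcon)
  have h5 : (φ ∘ Equiv.swap 1 k) 1 ≠ 0 := by
    simpa using hk
  have h6 := hP _ (Equiv.swap 1 k) (hmain _ h5)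
  have e : (φ ∘ Equiv.swap 1 k) ∘ Equiv.swap 1 k = φ := by
    funext i
    simp
  rw [e] at h6
  exact h6

theorem pf_HYP (hGMA : T_GMA) (hGMG : T_GMG) (hRNK : T_RNK) (hBGA : T_BGA) (hORM : T_ORM)
    (hHIC : T_HIC) : T_HYP := by
  intro M U G S _ _ _ _ m x hF hN ω hω K _ y hC φ hφ
  haveI := hF.dg
  haveI := hF.ful
  have hirr := (hRNK U x hF).1
  have hint := (hBGA U (univ : Set S) hirr).1
  have hmove : ∀ (ψ : Fin (m + 1 + 1) → K) (g : G) (A : GL (Fin (m + 1 + 1)) K),
      Gm U G x y g A →
      Big U (univ : Set S) {z | z ∈ XX U G x 1 ∧ ψ ⬝ᵥ hv y z ≠ 0} →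
      Big U (univ : Set S) {z | z ∈ XX U G x 1 ∧
        (ψ ᵥ* (A.val : Matrix _ _ K)) ⬝ᵥ hv y z ≠ 0} := by
    rintro ψ g A ⟨B, hB, hBz⟩ hψ
    have h1 := (hORM U hF.act g⁻¹ univ _).2.2.1 Ful.full hψ
    rw [Set.smul_set_univ] at h1
    refine Big_mono U (hint _ _ hB h1) ?_
    rintro z ⟨hzB, hz⟩
    rw [Set.mem_smul_set_iff_inv_smul_mem, inv_inv] at hz
    obtain ⟨h2, h3, c, hc, h4⟩ := hBz z hzB
    refine ⟨h2, fun h5 => hz.2 ?_⟩
    rw [h4, dotProduct_smul, dotProduct_mulVec, h5, smul_zero]
  have hgen := hGMG U x hF hN ω hω K y hC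
  refine good_all (fun φ => Big U (univ : Set S) {z | z ∈ XX U G x 1 ∧ φ ⬝ᵥ hv y z ≠ 0})
    ?_ ?_ ?_ φ hφ
  · intro c hc
    have h1 : (1 : Fin (m + 1 + 2)) ≠ 0 := by simp [Fin.ext_iff]
    refine Big_mono U (hHIC U x hF 1 h1).2.1 ?_
    intro z hz
    refine ⟨hz, ?_⟩
    rw [single_dotProduct]
    simpa [hv] using hc
  · intro ψ σ hψ
    obtain ⟨g, A, hg, hA⟩ := hgen.2.2.1 σ.symm
    have h1 := hmove ψ g A hg hψ
    rw [hA, vecMul_permMatrix] at h1
    exact h1
  · intro ψ b hψ
    obtain ⟨g, A, hg, hA⟩ := hgen.2.2.2 b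
    have h1 := hmove ψ g A hg hψ
    have e : ψ ᵥ* transvection 1 0 b = ψ + Pi.single 0 (ψ 1 * b) := by
      unfold transvection
      rw [vecMul_add, vecMul_one]
      congr 1
      funext j
      by_cases hj : j = 0
      · subst hj
        simp [vecMul, dotProduct, Matrix.single_apply]
      · rw [Pi.single_eq_of_ne hj]
        simp [vecMul, dotProduct, Matrix.single_apply, hj, Ne.symm hj]
    rw [hA, e] at h1
    exact h1

end Pool.Agent.H89.S
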