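import Pool.Agent.H78.S.T8

/-!
# Theorem S (MP_9d0bb7_lc), row LX0: existence of lines, all normal subgroups are transitive
-/

set_option autoImplicit false

open Set Pool.Agent.H77.BC Pool.Agent.H78.S
open scoped Pointwise

namespace Pool.Agent.H89.S

theorem pf_LX0 (kABN : Pool.Agent.H77.KG.T_ABN) (hMLC : T_MLC) (hCJM : T_CJM) (hREG : T_REG)
    (hRGV : T_RGV) (hMXL : T_MXL) (hCTB : T_CTB) (hCCA : T_CCA) (hORB : T_ORB) : T_LX0 := by
  intro M U G S _ _ _ _ _ _ hact hfa hsol T o e hctx hN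
  have A0 := l_RKA U
  have B0 := l_RKB U
  obtain ⟨ho, hDX, -, hDH, hDT, hcT, -, hTo, -, hXo, -, -, -, -, hRk, -⟩ :=
    hCTB U hact ⊤ univ T o e hctx
  have e0 : ((⊤ : Subgroup G) : Set G) = univ := Subgroup.coe_top
  have hpos : 1 ≤ U.R (univ : Set S) := hctx.pos
  -- infinite group
  have hGinf : ((⊤ : Subgroup G) : Set G).Infinite := by
    intro hfin
    have h1 := (A0.fin hDH ⟨1, Subgroup.one_mem _⟩).2 hfin
    omega
  obtain ⟨V, hVn, hVc, hVi, hVcom⟩ := kABN U hctx.conn ⊤ inferInstance inferInstance hGinf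
  have hVbot : V ≠ ⊥ := by
    intro h
    rw [h] at hVi
    apply hVi
    rw [Subgroup.coe_bot]
    exact Set.finite_singleton _
  have hVtr := hN V hVn hVc.1 hVbot
  have hVreg : ∀ v ∈ V, v • o = o → v = 1 := by
    intro v hv hvo
    apply hfa.eq_of_smul_eq_smul
    intro y
    obtain ⟨v', hv', rfl⟩ := hVtr o y
    rw [one_smul, ← mul_smul, hVcom v hv v' hv', mul_smul, hvo]
  -- `G = V T`
  have hRV : U.R (V : Set G) = U.R (univ : Set S) := by
    obtain ⟨-, -, h3, -⟩ := hORB U hact V o hVc.1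
    have e1 : Orb V o = univ := by
      ext y
      simp only [mem_univ, iff_true]
      obtain ⟨v, hv, h⟩ := hVtr o y
      exact ⟨v, hv, h.symm⟩
    have e2 : Fx V o = ⊥ := by
      rw [Subgroup.eq_bot_iff_forall]
      intro v hv
      exact hVreg v hv.1 hv.2
    have e3 : U.R ((⊥ : Subgroup G) : Set G) = 0 := by
      rw [Subgroup.coe_bot]
      exact (A0.fin (D_singleton _) ⟨1, rfl⟩).2 (Set.finite_singleton _)
    rw [e1, e2, e3, add_zero] at h3
    exact h3
  have hVT1 : ∀ v ∈ V, v ∈ T → v = 1 := fun v hv hvT => hVreg v hv (hTo v hvT)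
  have hmem : ∀ g : G, g ∈ V ⊔ T ↔ ∃ v ∈ V, ∃ t ∈ T, v * t = g := fun g =>
    Subgroup.mem_sup_of_normal_left
  have hset : ((V ⊔ T : Subgroup G) : Set G) =
      (fun p : G × G => p.1 * p.2) '' ((V : Set G) ×ˢ (T : Set G)) := by
    ext g
    rw [SetLike.mem_coe, hmem]
    constructor
    · rintro ⟨v, hv, t, ht, rfl⟩
      exact ⟨(v, t), ⟨hv, ht⟩, rfl⟩
    · rintro ⟨⟨v, t⟩, ⟨hv, ht⟩, rfl⟩
      exact ⟨v, hv, t, ht, rfl⟩
  have hmulD : DFn U (fun p : G × G => p.1 * p.2) := DG.mul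
  have hDprod : U.D ((V : Set G) ×ˢ (T : Set G)) := D_prod hVc.1 hDT
  have hDL : U.D ((V ⊔ T : Subgroup G) : Set G) := by
    rw [hset]
    exact DFn_image hmulD hDprod
  have hRL : U.R ((V ⊔ T : Subgroup G) : Set G) = U.R (V : Set G) + U.R (T : Set G) := by
    rw [hset, B0.inj hDprod hmulD ⟨(1, 1), V.one_mem, T.one_mem⟩ ?_,
      B0.prod hVc.1 hDT ⟨1, V.one_mem⟩ ⟨1, T.one_mem⟩]
    rintro ⟨v, t⟩ ⟨hv, ht⟩ ⟨v', t'⟩ ⟨hv', ht'⟩ hh
    have hh' : v * t = v' * t' := hh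
    have h1 : v'⁻¹ * v = t' * t⁻¹ := by
      rw [inv_mul_eq_iff_eq_mul, ← mul_assoc, ← hh', mul_inv_cancel_right]
    have h2 : v'⁻¹ * v = 1 :=
      hVT1 _ (V.mul_mem (V.inv_mem hv') hv) (by rw [h1]; exact T.mul_mem ht' (T.inv_mem ht))
    have h3 : v = v' := (inv_mul_eq_one.1 h2).symm
    have h4 : t = t' := by
      rw [h3] at hh'
      exact mul_left_cancel hh'
    rw [h3, h4]
  have htop : V ⊔ T = ⊤ := by
    refine hctx.conn.2 (V ⊔ T) le_top hDL ?_
    rw [hRL, hRV, ← hRk]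
  have hfac : ∀ g : G, ∃ v ∈ V, ∃ t ∈ T, v * t = g := fun g =>
    (hmem g).1 (by rw [htop]; exact Subgroup.mem_top g)
  have hnorm : ∀ t ∈ T, ∀ v ∈ V, t * v * t⁻¹ ∈ V := fun t _ v hv => hVn.conj_mem v hv t
  -- the module
  obtain ⟨G', V', _, _, _, _, _, i, j, hDG, hDAb, hDA, hcG', hii, hir, hji, hjr, hjadd, hjsm,
    hjD⟩ := hCJM U V T hVc.1 hcT hVcom hnorm
  have hj0 : j 0 = 1 := by
    have h := hjadd 0 0
    rw [add_zero] at h
    exact (mul_eq_left.1 h.symm)
  have hjneg : ∀ a : V', j (-a) = (j a)⁻¹ := by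
    intro a
    have h := hjadd (-a) a
    rw [neg_add_cancel, hj0] at h
    exact eq_inv_of_mul_eq_one_left h.symm
  have hjV : ∀ a : V', j a ∈ V := by
    intro a
    have : j a ∈ range j := ⟨a, rfl⟩
    rw [hjr] at this
    exact this
  have hVj : ∀ v ∈ V, ∃ a : V', j a = v := by
    intro v hv
    have : v ∈ (V : Set G) := hv
    rw [← hjr] at this
    exact this
  have hiT : ∀ g : G', i g ∈ T := by
    intro g
    rw [← hir]
    exact ⟨g, rfl⟩
  have hTi : ∀ t ∈ T, ∃ g : G', i g = t := by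
    intro t ht
    rw [← hir] at ht
    exact ht
  have hfaith : FaithfulSMul G' V' := by
    constructor
    intro g g' hgg
    have h1 : ∀ v ∈ V, ((i g')⁻¹ * i g) * v = v * ((i g')⁻¹ * i g) := by
      intro v hv
      obtain ⟨a, rfl⟩ := hVj v hv
      have h2 : i g * j a * (i g)⁻¹ = i g' * j a * (i g')⁻¹ := by
        rw [← hjsm, ← hjsm, hgg a]
      have h3 : i g * j a = i g' * j a * (i g')⁻¹ * i g := by
        rw [← h2, inv_mul_cancel_right]
      rw [mul_assoc, h3]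
      group
    have h4 : ((i g')⁻¹ * i g) • o = o := hTo _ (T.mul_mem (T.inv_mem (hiT g')) (hiT g))
    have h5 : (i g')⁻¹ * i g = 1 := by
      apply hfa.eq_of_smul_eq_smul
      intro y
      obtain ⟨v, hv, rfl⟩ := hVtr o y
      rw [one_smul, ← mul_smul, h1 v hv, mul_smul, h4]
    exact hii (inv_mul_eq_one.1 h5).symm
  have hV'inf : Infinite V' := by
    by_contra hfin
    rw [not_infinite_iff_finite] at hfin
    apply hVi
    rw [← hjr]
    exact Set.finite_range j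
  have hsol' : Group.IsSolvable G' := Group.isSolvable_of_isSolvable_injective hii
  have hsimple : ∀ B : AddSubgroup V', U.D (B : Set V') →
      Pool.Agent.H77.KG.Iv (⊤ : Subgroup G') B → B = ⊥ ∨ B = ⊤ := by
    intro B hDB hB
    let W : Subgroup G :=
      { carrier := j '' (B : Set V')
        one_mem' := ⟨0, B.zero_mem, hj0⟩
        mul_mem' := by
          rintro _ _ ⟨a, ha, rfl⟩ ⟨b, hb, rfl⟩
          exact ⟨a + b, B.add_mem ha hb, hjadd a b⟩
        inv_mem' := by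
          rintro _ ⟨a, ha, rfl⟩
          exact ⟨-a, B.neg_mem ha, hjneg a⟩ }
    have hWn : W.Normal := by
      constructor
      rintro _ ⟨a, ha, rfl⟩ g
      obtain ⟨v, hv, t, ht, rfl⟩ := hfac g
      obtain ⟨g', rfl⟩ := hTi t ht
      refine ⟨g' • a, hB g' (Subgroup.mem_top _) a ha, ?_⟩
      have h1 : v * j (g' • a) = j (g' • a) * v := hVcom v hv _ (hjV _)
      have h2 : v * i g' * j a * (v * i g')⁻¹ = v * (i g' * j a * (i g')⁻¹) * v⁻¹ := by group
      rw [h2, ← hjsm, h1, mul_inv_cancel_right]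
    by_cases hWb : W = ⊥
    · left
      rw [AddSubgroup.eq_bot_iff_forall]
      intro a ha
      have h1 : j a ∈ W := ⟨a, ha, rfl⟩
      rw [hWb, Subgroup.mem_bot] at h1
      apply hji
      rw [h1, hj0]
    · right
      have htr := hN W hWn ((hjD _).1 hDB) hWb
      rw [AddSubgroup.eq_top_iff']
      intro a
      obtain ⟨w, hw, hwo⟩ := htr o (j a • o)
      obtain ⟨b, hb, rfl⟩ := hw
      have h1 : ((j b)⁻¹ * j a) • o = o := by
        rw [mul_smul, ← hwo, inv_smul_smul]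
      have h2 := hVreg _ (V.mul_mem (V.inv_mem (hjV b)) (hjV a)) h1
      have h3 : j b = j a := inv_mul_eq_one.1 h2
      rw [← hji h3]
      exact hb
  have hcomm := hMLC U hfaith hV'inf hcG' hsol' hsimple
  have hTcom : Com T := by
    intro a ha b hb
    obtain ⟨g, rfl⟩ := hTi a ha
    obtain ⟨g', rfl⟩ := hTi b hb
    rw [← map_mul, ← map_mul, hcomm]
  have hfaX : ∀ h ∈ (⊤ : Subgroup G), (∀ y ∈ (univ : Set S), h • y = y) → h = 1 := by
    intro h _ hh
    apply hfa.eq_of_smul_eq_smul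
    intro y
    rw [one_smul]
    exact hh y (mem_univ _)
  have hVnorm : ∀ h ∈ (⊤ : Subgroup G), ∀ v ∈ V, h * v * h⁻¹ ∈ V :=
    fun h _ v hv => hVn.conj_mem v hv h
  have hcommV : ∀ g ∈ (⊤ : Subgroup G), ∀ h ∈ (⊤ : Subgroup G), g * h * g⁻¹ * h⁻¹ ∈ V := by
    intro g _ h _
    obtain ⟨v, hv, t, ht, rfl⟩ := hfac g
    obtain ⟨v', hv', t', ht', rfl⟩ := hfac h
    haveI := hVn
    have hv1 : QuotientGroup.mk' V v = 1 := (QuotientGroup.eq_one_iff v).2 hv
    have hv1' : QuotientGroup.mk' V v' = 1 := (QuotientGroup.eq_one_iff v').2 hv'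
    have htt : QuotientGroup.mk' V t * QuotientGroup.mk' V t' =
        QuotientGroup.mk' V t' * QuotientGroup.mk' V t := by
      rw [← map_mul, ← map_mul, hTcom t ht t' ht']
    rw [← QuotientGroup.eq_one_iff]
    show QuotientGroup.mk' V (v * t * (v' * t') * (v * t)⁻¹ * (v' * t')⁻¹) = 1
    simp only [map_mul, map_inv, hv1, hv1', one_mul]
    rw [htt, mul_inv_cancel_right, mul_inv_cancel]
  obtain ⟨-, -, -, hTF, -⟩ := hREG U hact ⊤ univ T o e hctx hTcom hfaX V le_top hVc.1 hVcom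
    hVnorm hcommV
  obtain ⟨R, _, jj, hRg⟩ := hRGV U hact ⊤ univ T o e hctx hTcom hfaX V le_top hVc.1 hVcom
    hVnorm (fun y _ => hVtr o y) hVreg hVc hTF
    (fun h _ => by obtain ⟨v, hv, t, ht, rfl⟩ := hfac h; exact ⟨v, hv, t, ht, rfl⟩)
  have hnt : Nontrivial R := by
    by_contra hcon
    rw [not_nontrivial_iff_subsingleton] at hcon
    have hsub : Subsingleton S := ⟨fun a b =>
      hRg.inj (mem_univ a) (mem_univ b) (Subsingleton.elim _ _)⟩
    have hfin : (univ : Set S).Finite := Set.finite_univ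
    have h1 := (A0.fin hDX ⟨o, mem_univ _⟩).2 hfin
    omega
  obtain ⟨I, hI⟩ := Ideal.exists_maximal R
  exact ⟨_, hMXL U hact ⊤ univ T o e hctx R jj hRg I hI⟩

end Pool.Agent.H89.S
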